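import Mathlib

/-!
# The theory ACFO (Tran): definitions
-/

set_option autoImplicit false

open FirstOrder

universe u

namespace Pool.Agent.V11251.ACFO

/-- Function symbols of the group language. -/
inductive MFun : ℕ → Type
  | one : MFun 0
  | inv : MFun 1
  | mul : MFun 2

/-- Function symbols of the ring language. -/
inductive CFun : ℕ → Type
  | zero : CFun 0
  | one : CFun 0
  | neg : CFun 1
  | add : CFun 2
  | mul : CFun 2

/-- Relation symbols: the binary symbol `lt` and the unary symbols `P n r` for `0 ≤ r < n`. -/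
inductive MRel : ℕ → Type
  | lt : MRel 2
  | P (n : ℕ) (r : Fin n) : MRel 1

/-- The language `L_m`: the group language with `<` and all `P^r_n`. -/
def Lm : FirstOrder.Language.{0, 0} := ⟨MFun, MRel⟩

/-- The language `L_c`: the ring language with `<` and all `P^r_n`. -/
def Lc : FirstOrder.Language.{0, 0} := ⟨CFun, MRel⟩

/-- Interpretations of `<` and of the `P^r_n` on a set `G`. -/
structure Data (G : Type u) where
  lt : G → G → Prop
  P : (n : ℕ) → Fin n → G → Prop

/-- The `L_m`-structure on a group given by the group operations and the data `D`. -/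
@[reducible] def mStr (G : Type u) [Group G] (D : Data G) : Lm.Structure G where
  funMap := fun f v => match f, v with
    | MFun.one, _ => 1
    | MFun.inv, v => (v 0)⁻¹
    | MFun.mul, v => v 0 * v 1
  RelMap := fun R v => match R, v with
    | MRel.lt, v => D.lt (v 0) (v 1)
    | MRel.P n r, v => D.P n r (v 0)

/-- The `L_c`-structure on a field `F` given by the ring operations and by data on `F^×`; the
relations `<` and `P^r_n` live on `F^×`. -/
@[reducible] def cStr (F : Type u) [Field F] (D : Data Fˣ) : Lc.Structure F where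
  funMap := fun f v => match f, v with
    | CFun.zero, _ => 0
    | CFun.one, _ => 1
    | CFun.neg, v => - v 0
    | CFun.add, v => v 0 + v 1
    | CFun.mul, v => v 0 * v 1
  RelMap := fun R v => match R, v with
    | MRel.lt, v => ∃ a b : Fˣ, (a : F) = v 0 ∧ (b : F) = v 1 ∧ D.lt a b
    | MRel.P n r, v => ∃ a : Fˣ, (a : F) = v 0 ∧ D.P n r a

/-- `wn(c,n)`: the number of `0 ≤ k ≤ n-1` with `c^(k+1) < c^k`. -/
noncomputable def wn {G : Type u} [Group G] (lt : G → G → Prop) (c : G) (n : ℕ) : ℕ :=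
  Set.ncard {k : ℕ | k < n ∧ lt (c ^ (k + 1)) (c ^ k)}

/-- For `z` on the unit circle, the unique `α ∈ [0,1)` with `z = e^{2 π i α}`. -/
noncomputable def ang (z : ℂ) : ℝ := Int.fract (Complex.arg z / (2 * Real.pi))

/-- The group `U_(p)` of complex roots of unity of order prime to `p` (all roots of unity for
`p = 0`). -/
def U (p : ℕ) : Subgroup ℂˣ where
  carrier := {z | ∃ n : ℕ, 0 < n ∧ (p = 0 ∨ n.Coprime p) ∧ z ^ n = 1}
  one_mem' := ⟨1, one_pos, Or.inr (Nat.coprime_one_left p), one_pow 1⟩
  mul_mem' := by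
    rintro a b ⟨n, hn, hnp, ha⟩ ⟨k, hk, hkp, hb⟩
    refine ⟨n * k, Nat.mul_pos hn hk, ?_, ?_⟩
    · rcases hnp with h | h
      · exact Or.inl h
      · rcases hkp with h' | h'
        · exact Or.inl h'
        · exact Or.inr (Nat.Coprime.mul_left h h')
    · rw [mul_pow, pow_mul, ha, one_pow, mul_comm n k, pow_mul, hb, one_pow, one_mul]
  inv_mem' := by
    rintro a ⟨n, hn, hnp, ha⟩
    exact ⟨n, hn, hnp, by rw [inv_pow, ha, inv_one]⟩

/-- The order of `U_(p)` carried over from `[0,1)`. -/
def ult (p : ℕ) (a b : U p) : Prop := ang ((a : ℂˣ) : ℂ) < ang ((b : ℂˣ) : ℂ)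

/-- The interpretation of `<` and `P^r_n` in `U_(p)`. -/
def uData (p : ℕ) : Data (U p) where
  lt := ult p
  P := fun n r a => ∃ c : U p, c ^ n = a ∧ wn (ult p) c n = r

/-- The complete theory `T_{m,p}` of `(U_(p); <, P)`. -/
def Tm (p : ℕ) : Lm.Theory := @Language.completeTheory Lm (U p) (mStr (U p) (uData p))

/-- `(F; <, P)` is a model of `ACFO^-`. -/
def IsACFOminus (F : Type u) [Field F] (D : Data Fˣ) : Prop :=
  ∃ p : ℕ, (p = 0 ∨ p.Prime) ∧ CharP F p ∧ IsAlgClosed F ∧
    @Language.Theory.Model Lm Fˣ (mStr Fˣ D) (Tm p)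

/-- Zariski closed subsets of `F^m`. -/
def ZClosed {F : Type u} [Field F] {m : ℕ} (Z : Set (Fin m → F)) : Prop :=
  ∃ S : Set (MvPolynomial (Fin m) F), Z = {x | ∀ f ∈ S, MvPolynomial.eval x f = 0}

/-- Irreducible sets for the Zariski topology. -/
def ZIrreducible {F : Type u} [Field F] {m : ℕ} (Z : Set (Fin m → F)) : Prop :=
  Z.Nonempty ∧ ∀ A B : Set (Fin m → F), ZClosed A → ZClosed B → Z ⊆ A ∪ B → Z ⊆ A ∨ Z ⊆ B

/-- Quasi-affine varieties: nonempty Zariski open subsets of irreducible Zariski closed sets. -/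
def QuasiAffine {F : Type u} [Field F] {m : ℕ} (V : Set (Fin m → F)) : Prop :=
  V.Nonempty ∧ ∃ Z W : Set (Fin m → F), ZClosed Z ∧ ZIrreducible Z ∧ ZClosed W ∧ V = Z \ W

/-- The points of `V` with all coordinates in `F^×`, as a subset of `(F^×)^m`. -/
def units {F : Type u} [Field F] {m : ℕ} (V : Set (Fin m → F)) : Set (Fin m → Fˣ) :=
  {x | (fun i => (x i : F)) ∈ V}

/-- `V` is multiplicatively large. -/
def MultLarge {F : Type u} [Field F] {m : ℕ} (V : Set (Fin m → F)) : Prop :=
  ∀ k : Fin m → ℤ, k ≠ 0 → ∀ c : Fˣ, ¬ units V ⊆ {x | ∏ i, x i ^ k i = c}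

/-- The order topology on `F^×`, with basis the sets `{a : 1 ≤ a < c'}` and
`{a : c < a < c'}`. -/
@[reducible] def ordTop {G : Type u} [Group G] (lt : G → G → Prop) : TopologicalSpace G :=
  TopologicalSpace.generateFrom
    ({B | ∃ c' : G, B = {a | (a = 1 ∨ lt 1 a) ∧ lt a c'}} ∪
      {B | ∃ c c' : G, B = {a | lt c a ∧ lt a c'}})

/-- Generic models: every multiplicatively large quasi-affine variety is dense for the order
topology. -/
def IsGeneric (F : Type u) [Field F] (D : Data Fˣ) : Prop :=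
  ∀ (m : ℕ) (V : Set (Fin m → F)), QuasiAffine V → MultLarge V →
    @Dense (Fin m → Fˣ) (@Pi.topologicalSpace (Fin m) (fun _ => Fˣ) (fun _ => ordTop D.lt))
      (units V)

/-- Models of `ACFO`: generic models of `ACFO^-`. -/
def IsACFO (F : Type u) [Field F] (D : Data Fˣ) : Prop := IsACFOminus F D ∧ IsGeneric F D

end Pool.Agent.V11251.ACFO
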