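import Pool.Agent.V11251.ACFO.Ord

set_option autoImplicit false
set_option linter.unusedVariables false
set_option linter.unusedSectionVars false

open FirstOrder

universe u

namespace Pool.Agent.V11251.ACFO

open MvPolynomial

section graph

variable {F : Type u} [Field F] [Infinite F] {d N : ℕ} (e : Fin d → Fin N)
  (p : Fin N → MvPolynomial (Fin d) F)

/-- the graph variety -/
def gr : Set (Fin N → F) := {z | ∀ j, z j = eval (fun i => z (e i)) (p j)}

/-- the parametrisation -/
noncomputable def par (w : Fin d → F) : Fin N → F := fun j => eval w (p j)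

variable {e p}

theorem par_mem (he : ∀ i, p (e i) = X i) (w : Fin d → F) : par p w ∈ gr e p := by
  intro j
  have : (fun i => par p w (e i)) = w := by
    funext i
    unfold par
    rw [he i, eval_X]
  rw [this]
  rfl

theorem mem_gr_iff (he : ∀ i, p (e i) = X i) (z : Fin N → F) :
    z ∈ gr e p ↔ ∃ w, z = par p w := by
  constructor
  · intro h
    exact ⟨fun i => z (e i), funext h⟩
  · rintro ⟨w, rfl⟩
    exact par_mem he w

theorem zclosed_gr : ZClosed (gr e p) := by
  refine ⟨Set.range fun j : Fin N => X j - rename e (p j), ?_⟩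
  ext z
  simp only [gr, Set.mem_setOf_eq, Set.mem_range, forall_exists_index, forall_apply_eq_imp_iff,
    map_sub, eval_X, eval_rename, sub_eq_zero]
  rfl

theorem eval_comp (f : MvPolynomial (Fin N) F) (w : Fin d → F) :
    eval w (bind₁ p f) = eval (par p w) f := by
  induction f using MvPolynomial.induction_on with
  | C a => simp
  | add f g hf hg => simp only [map_add, hf, hg]
  | mul_X f i hf =>
    simp only [map_mul, hf, bind₁_X_right, eval_X]
    rfl

theorem zirr_gr (he : ∀ i, p (e i) = X i) : ZIrreducible (gr e p) := by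
  refine ⟨⟨par p 0, par_mem he 0⟩, ?_⟩
  rintro A B ⟨SA, rfl⟩ ⟨SB, rfl⟩ hAB
  by_contra hcon
  rw [not_or, Set.not_subset, Set.not_subset] at hcon
  obtain ⟨⟨x, hx, hxA⟩, ⟨y, hy, hyB⟩⟩ := hcon
  simp only [Set.mem_setOf_eq, not_forall] at hxA hyB
  obtain ⟨f, hf, hfx⟩ := hxA
  obtain ⟨g, hg, hgy⟩ := hyB
  obtain ⟨w, rfl⟩ := (mem_gr_iff he x).1 hx
  obtain ⟨w', rfl⟩ := (mem_gr_iff he y).1 hy
  have h1 : bind₁ p f ≠ 0 := by
    intro h
    apply hfx
    rw [← eval_comp, h, map_zero]
  have h2 : bind₁ p g ≠ 0 := by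
    intro h
    apply hgy
    rw [← eval_comp, h, map_zero]
  apply mul_ne_zero h1 h2
  apply MvPolynomial.funext
  intro v
  rw [map_mul, eval_comp, eval_comp, map_zero]
  rcases hAB (par_mem he v) with h | h
  · rw [h f hf, zero_mul]
  · rw [h g hg, mul_zero]

/-- multiplicative independence -/
theorem multlarge_gr (he : ∀ i, p (e i) = X i) (hp0 : ∀ i, p i ≠ 0)
    (hp : ∀ i, ∃ w : Fin d → F, eval w (p i) = 0 ∧ ∀ j, j ≠ i → eval w (p j) ≠ 0) :
    MultLarge (gr e p) := by
  classical
  intro k hk c hsub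
  set A : MvPolynomial (Fin d) F := ∏ i, p i ^ (k i).toNat with hA
  set B : MvPolynomial (Fin d) F := ∏ i, p i ^ (-k i).toNat with hB
  have key : A = C (c : F) * B := by
    have h0 : (∏ i, p i) * (A - C (c : F) * B) = 0 := by
      apply MvPolynomial.funext
      intro v
      rw [map_mul, map_zero, mul_eq_zero]
      by_cases hv : ∃ i, eval v (p i) = 0
      · left
        obtain ⟨i, hi⟩ := hv
        rw [map_prod]
        exact Finset.prod_eq_zero (Finset.mem_univ i) hi
      · right
        push Not at hv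
        have hmem : (fun i => Units.mk0 (eval v (p i)) (hv i)) ∈ units (gr e p) := by
          show (fun i => ((Units.mk0 (eval v (p i)) (hv i) : Fˣ) : F)) ∈ gr e p
          exact par_mem he v
        have h1 := hsub hmem
        simp only [Set.mem_setOf_eq] at h1
        have h2 : (∏ i, (Units.mk0 (eval v (p i)) (hv i)) ^ (k i).toNat) =
            c * ∏ i, (Units.mk0 (eval v (p i)) (hv i)) ^ (-k i).toNat := by
          rw [← h1, ← Finset.prod_mul_distrib]
          apply Finset.prod_congr rfl
          intro i _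
          rw [← zpow_natCast, ← zpow_natCast, ← zpow_add]
          congr 1
          omega
        have h3 := congrArg (Units.val) h2
        simp only [Units.coe_prod, Units.val_mul, Units.val_pow_eq_pow_val, Units.val_mk0] at h3
        rw [map_sub, map_mul, eval_C, hA, hB, map_prod, map_prod, sub_eq_zero]
        simp only [map_pow]
        exact h3
    rcases mul_eq_zero.1 h0 with h | h
    · exact absurd h (Finset.prod_ne_zero_iff.2 fun i _ => hp0 i)
    · exact sub_eq_zero.1 h
  obtain ⟨i, hi⟩ : ∃ i, k i ≠ 0 := by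
    by_contra hcon
    push Not at hcon
    exact hk (funext hcon)
  obtain ⟨w, hw0, hw1⟩ := hp i
  have hval := congrArg (eval w) key
  rw [map_mul, eval_C, hA, hB, map_prod, map_prod] at hval
  simp only [map_pow] at hval
  rcases lt_or_gt_of_ne hi with hneg | hpos
  · have hz : ∏ j, (eval w (p j)) ^ (-k j).toNat = 0 := by
      apply Finset.prod_eq_zero (Finset.mem_univ i)
      rw [hw0, zero_pow]
      omega
    rw [hz, mul_zero] at hval
    rw [Finset.prod_eq_zero_iff] at hval
    obtain ⟨j, _, hj⟩ := hval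
    by_cases hji : j = i
    · subst hji
      have : (k j).toNat = 0 := by omega
      rw [this, pow_zero] at hj
      exact one_ne_zero hj
    · exact hw1 j hji (eq_zero_of_pow_eq_zero hj)
  · have hz : ∏ j, (eval w (p j)) ^ (k j).toNat = 0 := by
      apply Finset.prod_eq_zero (Finset.mem_univ i)
      rw [hw0, zero_pow]
      omega
    rw [hz] at hval
    have hval' := (mul_eq_zero.1 hval.symm).resolve_left c.ne_zero
    rw [Finset.prod_eq_zero_iff] at hval'
    obtain ⟨j, _, hj⟩ := hval'
    by_cases hji : j = i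
    · subst hji
      have : (-k j).toNat = 0 := by omega
      rw [this, pow_zero] at hj
      exact one_ne_zero hj
    · exact hw1 j hji (eq_zero_of_pow_eq_zero hj)

theorem zclosed_empty : ZClosed (∅ : Set (Fin N → F)) := by
  refine ⟨{1}, ?_⟩
  ext x
  simp

/-- the density lemma -/
theorem density (D : Data Fˣ) (hgen : IsGeneric F D) (hD : DLO D.lt)
    (he : ∀ i, p (e i) = X i) (hp0 : ∀ i, p i ≠ 0)
    (hp : ∀ i, ∃ w : Fin d → F, eval w (p i) = 0 ∧ ∀ j, j ≠ i → eval w (p j) ≠ 0)
    (a b : Fin N → Fˣ) (hab : ∀ i, D.lt (a i) (b i)) :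
    ∃ w : Fin d → F, ∀ i, ∃ x : Fˣ, (x : F) = eval w (p i) ∧ D.lt (a i) x ∧ D.lt x (b i) := by
  letI : TopologicalSpace Fˣ := ordTop D.lt
  have h1 := hgen N (gr e p)
    ⟨⟨par p 0, par_mem he 0⟩, gr e p, ∅, zclosed_gr, zirr_gr he, zclosed_empty, by simp⟩
    (multlarge_gr he hp0 hp)
  have hopen : IsOpen (Set.pi Set.univ fun i => {x : Fˣ | D.lt (a i) x ∧ D.lt x (b i)}) := by
    apply isOpen_set_pi Set.finite_univ
    intro i _
    apply TopologicalSpace.isOpen_generateFrom_of_mem
    right
    exact ⟨a i, b i, rfl⟩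
  have hne : (Set.pi Set.univ fun i => {x : Fˣ | D.lt (a i) x ∧ D.lt x (b i)}).Nonempty := by
    choose c hc using fun i => hD.dense (a i) (b i) (hab i)
    exact ⟨c, fun i _ => hc i⟩
  obtain ⟨x, hx1, hx2⟩ := h1.inter_open_nonempty _ hopen hne
  obtain ⟨w, hw⟩ := (mem_gr_iff he _).1 hx2
  refine ⟨w, fun i => ⟨x i, ?_, hx1 i trivial⟩⟩
  exact congrFun hw i

end graph

end Pool.Agent.V11251.ACFO
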