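import Pool.Agent.V11251.ACFO.Dens

set_option autoImplicit false
set_option linter.unusedVariables false
set_option linter.unusedSectionVars false

open FirstOrder

universe u

namespace Pool.Agent.V11251.ACFO

open MvPolynomial

section

variable {F : Type u} [Field F] [Infinite F]

/-- density over an arbitrary finite index type -/
theorem density' {d : ℕ} {ι : Type*} [Fintype ι] (e : Fin d → ι) (p : ι → MvPolynomial (Fin d) F)
    (D : Data Fˣ) (hgen : IsGeneric F D) (hD : DLO D.lt)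
    (he : ∀ i, p (e i) = X i) (hp0 : ∀ i, p i ≠ 0)
    (hp : ∀ i, ∃ w : Fin d → F, eval w (p i) = 0 ∧ ∀ j, j ≠ i → eval w (p j) ≠ 0)
    (a b : ι → Fˣ) (hab : ∀ i, D.lt (a i) (b i)) :
    ∃ w : Fin d → F, ∀ i, ∃ x : Fˣ, (x : F) = eval w (p i) ∧ D.lt (a i) x ∧ D.lt x (b i) := by
  let q := Fintype.equivFin ι
  obtain ⟨w, hw⟩ := density (e := fun i => q (e i)) (p := fun i => p (q.symm i)) D hgen hD
    (by intro i; simp [he]) (fun i => hp0 _)
    (by
      intro i
      obtain ⟨w, h1, h2⟩ := hp (q.symm i)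
      exact ⟨w, h1, fun j hj => h2 _ (fun h => hj (q.symm.injective h))⟩)
    (fun i => a (q.symm i)) (fun i => b (q.symm i)) (fun i => hab _)
  refine ⟨w, fun i => ?_⟩
  have := hw (q i)
  simpa using this

theorem exists_eval_ne {Q : Polynomial F} (hQ : Q ≠ 0) : ∃ s, Q.eval s ≠ 0 := by
  by_contra h
  push Not at h
  exact hQ (Polynomial.funext (by intro r; rw [h r, Polynomial.eval_zero]))

/-- the form `v₀ + x₀ v₁ + x₁ v₁² + x₂ v₁³` -/
def gf (v x : Fin 3 → F) : F := v 0 + x 0 * v 1 + x 1 * v 1 ^ 2 + x 2 * v 1 ^ 3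

/-- the polynomials -/
noncomputable def hp3 (𝒞 : Finset (Finset (Fin 3 → F))) :
    Fin 3 ⊕ {a // a ∈ 𝒞} → MvPolynomial (Fin 3) F
  | Sum.inl i => X i
  | Sum.inr a => X 2 + ∏ x ∈ a.1, (X 0 + C (x 0) * X 1 + C (x 1) * X 1 ^ 2 + C (x 2) * X 1 ^ 3)

theorem eval_inr (𝒞 : Finset (Finset (Fin 3 → F))) (a : {a // a ∈ 𝒞}) (w : Fin 3 → F) :
    eval w (hp3 𝒞 (Sum.inr a)) = w 2 + ∏ x ∈ a.1, gf w x := by
  simp only [hp3, map_add, eval_X, map_prod, map_mul, eval_C, map_pow, gf]

theorem sep_point (n : ℕ) (𝒞 : Finset (Finset (Fin 3 → F))) (h𝒞 : ∀ a ∈ 𝒞, a.card = n)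
    (a : Finset (Fin 3 → F)) (ha : a ∈ 𝒞) :
    ∃ r s : F, r ≠ 0 ∧ s ≠ 0 ∧ (∏ x ∈ a, (r + x 0 * s + x 1 * s ^ 2 + x 2 * s ^ 3)) ≠ 0 ∧
      ∀ b ∈ 𝒞, b ≠ a → (∏ x ∈ b, (r + x 0 * s + x 1 * s ^ 2 + x 2 * s ^ 3)) ≠
        ∏ x ∈ a, (r + x 0 * s + x 1 * s ^ 2 + x 2 * s ^ 3) := by
  classical
  -- choose s
  set U : Finset (Fin 3 → F) := 𝒞.biUnion id with hU
  let q : (Fin 3 → F) → Polynomial F := fun x =>
    Polynomial.C (x 0) * Polynomial.X + Polynomial.C (x 1) * Polynomial.X ^ 2 +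
      Polynomial.C (x 2) * Polynomial.X ^ 3
  have hq : ∀ x y, q x = q y → x = y := by
    intro x y h
    funext i
    have h1 := congrArg (fun P => Polynomial.coeff P 1) h
    have h2 := congrArg (fun P => Polynomial.coeff P 2) h
    have h3 := congrArg (fun P => Polynomial.coeff P 3) h
    simp [q, Polynomial.coeff_X, Polynomial.coeff_X_pow] at h1 h2 h3
    fin_cases i
    · exact h1
    · exact h2
    · exact h3
  have hQ : Polynomial.X * ∏ z ∈ U.offDiag, (q z.1 - q z.2) ≠ 0 := by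
    apply mul_ne_zero Polynomial.X_ne_zero
    apply Finset.prod_ne_zero_iff.2
    intro z hz
    rw [Finset.mem_offDiag] at hz
    exact sub_ne_zero.2 fun h => hz.2.2 (hq _ _ h)
  obtain ⟨s, hs⟩ := exists_eval_ne hQ
  rw [Polynomial.eval_mul, Polynomial.eval_X, Polynomial.eval_prod] at hs
  have hs0 : s ≠ 0 := fun h => hs (by rw [h, zero_mul])
  have hs1 : ∀ x ∈ U, ∀ y ∈ U, x ≠ y → (q x).eval s ≠ (q y).eval s := by
    intro x hx y hy hxy h
    apply hs
    rw [mul_eq_zero]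
    right
    apply Finset.prod_eq_zero (i := (x, y))
    · rw [Finset.mem_offDiag]; exact ⟨hx, hy, hxy⟩
    · rw [Polynomial.eval_sub, h, sub_self]
  -- choose r
  let P : Finset (Fin 3 → F) → Polynomial F := fun b =>
    ∏ x ∈ b, (Polynomial.X + Polynomial.C ((q x).eval s))
  have hPne : ∀ b, P b ≠ 0 := by
    intro b
    apply Finset.prod_ne_zero_iff.2
    intro x _
    exact (Polynomial.monic_X_add_C _).ne_zero
  have hPdiff : ∀ b ∈ 𝒞, b ≠ a → P b - P a ≠ 0 := by
    intro b hb hba h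
    have hcard : b.card = a.card := by rw [h𝒞 b hb, h𝒞 a ha]
    have hnsub : ¬ a ⊆ b := fun hsub => hba (Finset.eq_of_subset_of_card_le hsub hcard.le).symm
    obtain ⟨x, hxa, hxb⟩ := Finset.not_subset.1 hnsub
    have hxU : x ∈ U := Finset.mem_biUnion.2 ⟨a, ha, hxa⟩
    have h1 : (P a).eval (-(q x).eval s) = 0 := by
      simp only [P]
      rw [Polynomial.eval_prod]
      apply Finset.prod_eq_zero hxa
      simp
    have h2 : (P b).eval (-(q x).eval s) ≠ 0 := by
      simp only [P]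
      rw [Polynomial.eval_prod]
      apply Finset.prod_ne_zero_iff.2
      intro y hy
      have hyU : y ∈ U := Finset.mem_biUnion.2 ⟨b, hb, hy⟩
      have hne : y ≠ x := fun h => hxb (h ▸ hy)
      have := hs1 y hyU x hxU hne
      simp only [Polynomial.eval_add, Polynomial.eval_X, Polynomial.eval_C]
      intro h0
      apply this
      linear_combination h0
    rw [sub_eq_zero] at h
    rw [h] at h2
    exact h2 h1
  have hQ2 : Polynomial.X * P a * ∏ b ∈ 𝒞.erase a, (P b - P a) ≠ 0 := by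
    apply mul_ne_zero (mul_ne_zero Polynomial.X_ne_zero (hPne a))
    apply Finset.prod_ne_zero_iff.2
    intro b hb
    rw [Finset.mem_erase] at hb
    exact hPdiff b hb.2 hb.1
  obtain ⟨r, hr⟩ := exists_eval_ne hQ2
  rw [Polynomial.eval_mul, Polynomial.eval_mul, Polynomial.eval_X,
    Polynomial.eval_prod (𝒞.erase a)] at hr
  have hev : ∀ b : Finset (Fin 3 → F), (P b).eval r =
      ∏ x ∈ b, (r + x 0 * s + x 1 * s ^ 2 + x 2 * s ^ 3) := by
    intro b
    simp only [P]
    rw [Polynomial.eval_prod]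
    apply Finset.prod_congr rfl
    intro x _
    simp [q]
    ring
  refine ⟨r, s, ?_, hs0, ?_, ?_⟩
  · intro h; apply hr; rw [h]; ring
  · intro h; apply hr; rw [hev a, h]; ring
  · intro b hb hba h
    apply hr
    rw [mul_eq_zero]
    right
    apply Finset.prod_eq_zero (Finset.mem_erase.2 ⟨hba, hb⟩)
    rw [Polynomial.eval_sub, hev, hev, h, sub_self]

theorem hp_cond (n : ℕ) (𝒞 : Finset (Finset (Fin 3 → F))) (h𝒞 : ∀ a ∈ 𝒞, a.card = n)
    (i : Fin 3 ⊕ {a // a ∈ 𝒞}) :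
    ∃ w : Fin 3 → F, eval w (hp3 𝒞 i) = 0 ∧ ∀ j, j ≠ i → eval w (hp3 𝒞 j) ≠ 0 := by
  classical
  rcases i with i | a
  · fin_cases i
    · -- r = 0
      obtain ⟨t, ht⟩ := Infinite.exists_notMem_finset
        (insert (0 : F) (𝒞.image fun b => - ∏ x ∈ b, gf ![0, 1, 0] x))
      simp only [Finset.mem_insert, Finset.mem_image, not_or, not_exists, not_and] at ht
      refine ⟨![0, 1, t], by simp [hp3], ?_⟩
      intro j hj
      rcases j with j | b
      · fin_cases j
        · exact absurd rfl hj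
        · simp [hp3]
        · simpa [hp3] using ht.1
      · rw [eval_inr]
        intro h
        apply ht.2 b.1 b.2
        have : ∀ x : Fin 3 → F, gf ![0, 1, t] x = gf ![0, 1, 0] x := by
          intro x; simp [gf]
        simp only [this] at h
        have h' : (![0, 1, t] : Fin 3 → F) 2 = t := rfl
        rw [h'] at h
        linear_combination -h
    · -- s = 0
      obtain ⟨t, ht⟩ := Infinite.exists_notMem_finset
        (insert (0 : F) (𝒞.image fun b => - ∏ x ∈ b, gf ![1, 0, 0] x))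
      simp only [Finset.mem_insert, Finset.mem_image, not_or, not_exists, not_and] at ht
      refine ⟨![1, 0, t], by simp [hp3], ?_⟩
      intro j hj
      rcases j with j | b
      · fin_cases j
        · simp [hp3]
        · exact absurd rfl hj
        · simpa [hp3] using ht.1
      · rw [eval_inr]
        intro h
        apply ht.2 b.1 b.2
        have : ∀ x : Fin 3 → F, gf ![1, 0, t] x = gf ![1, 0, 0] x := by
          intro x; simp [gf]
        simp only [this] at h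
        have h' : (![1, 0, t] : Fin 3 → F) 2 = t := rfl
        rw [h'] at h
        linear_combination -h
    · -- t = 0
      obtain ⟨r, hr⟩ := Infinite.exists_notMem_finset
        (insert (0 : F) ((𝒞.biUnion id).image fun x => - gf ![0, 1, 0] x))
      simp only [Finset.mem_insert, Finset.mem_image, not_or, not_exists, not_and] at hr
      refine ⟨![r, 1, 0], by simp [hp3], ?_⟩
      intro j hj
      rcases j with j | b
      · fin_cases j
        · simpa [hp3] using hr.1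
        · simp [hp3]
        · exact absurd rfl hj
      · rw [eval_inr]
        have h' : (![r, 1, 0] : Fin 3 → F) 2 = 0 := rfl
        rw [h', zero_add]
        apply Finset.prod_ne_zero_iff.2
        intro x hx h
        apply hr.2 x (Finset.mem_biUnion.2 ⟨b.1, b.2, hx⟩)
        simp [gf] at h ⊢
        linear_combination -h
  · obtain ⟨r, s, hr, hs, h1, h2⟩ := sep_point n 𝒞 h𝒞 a.1 a.2
    refine ⟨![r, s, - ∏ x ∈ a.1, (r + x 0 * s + x 1 * s ^ 2 + x 2 * s ^ 3)], ?_, ?_⟩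
    · rw [eval_inr]
      simp [gf]
    · intro j hj
      rcases j with j | b
      · fin_cases j
        · simpa [hp3] using hr
        · simpa [hp3] using hs
        · simp only [hp3, eval_X]
          show - ∏ x ∈ a.1, (r + x 0 * s + x 1 * s ^ 2 + x 2 * s ^ 3) ≠ 0
          exact neg_ne_zero.2 h1
      · rw [eval_inr]
        have hba : b.1 ≠ a.1 := fun h => hj (by rw [Subtype.ext h])
        have := h2 b.1 b.2 hba
        simp only [gf]
        simp
        intro h0
        apply this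
        linear_combination h0

theorem hp_ne (n : ℕ) (𝒞 : Finset (Finset (Fin 3 → F))) (h𝒞 : ∀ a ∈ 𝒞, a.card = n)
    (i : Fin 3 ⊕ {a // a ∈ 𝒞}) : hp3 𝒞 i ≠ 0 := by
  intro h
  obtain ⟨j, hj⟩ : ∃ j, i ≠ j := by
    by_cases h0 : i = Sum.inl 0
    · exact ⟨Sum.inl 1, by rw [h0]; simp⟩
    · exact ⟨Sum.inl 0, h0⟩
  obtain ⟨w, _, hw⟩ := hp_cond n 𝒞 h𝒞 j
  exact hw i hj (by rw [h, map_zero])

theorem exists_ub {G : Type*} {lt : G → G → Prop} (hlt : DLO lt) (s : Finset G) (a : G) :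
    ∃ c, ∀ u ∈ s, lt u c := by
  classical
  induction s using Finset.induction_on with
  | empty => exact ⟨a, by simp⟩
  | insert x s hx ih =>
    obtain ⟨c, hc⟩ := ih
    rcases hlt.total x c with h | h | h
    · exact ⟨c, by
        intro u hu
        rcases Finset.mem_insert.1 hu with rfl | hu
        · exact h
        · exact hc u hu⟩
    · obtain ⟨b, hb⟩ := hlt.nomax c
      refine ⟨b, ?_⟩
      intro u hu
      rcases Finset.mem_insert.1 hu with rfl | hu
      · rw [h]; exact hb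
      · exact hlt.trans _ _ _ (hc u hu) hb
    · obtain ⟨b, hb⟩ := hlt.nomax x
      refine ⟨b, ?_⟩
      intro u hu
      rcases Finset.mem_insert.1 hu with rfl | hu
      · exact hb
      · exact hlt.trans _ _ _ (hc u hu) (hlt.trans _ _ _ h hb)

/-- the key extension lemma -/
theorem extension (D : Data Fˣ) (hgen : IsGeneric F D) (hD : DLO D.lt) (n : ℕ)
    (𝒜 ℬ : Finset (Finset (Fin 3 → F))) (hA : ∀ a ∈ 𝒜, a.card = n) (hB : ∀ b ∈ ℬ, b.card = n)
    (hAB : Disjoint 𝒜 ℬ) (d₀ d₁ d₂ : Fˣ) (h01 : D.lt d₀ d₁) (h12 : D.lt d₁ d₂)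
    (S : Finset Fˣ) :
    ∃ v : Fin 3 → F, (∃ r : Fˣ, (r : F) = v 0 ∧ ∀ u ∈ S, D.lt u r) ∧
      (∀ a ∈ 𝒜, ∃ x : Fˣ, (x : F) = v 2 + ∏ y ∈ a, gf v y ∧ D.lt d₀ x ∧ D.lt x d₁) ∧
      (∀ b ∈ ℬ, ∃ x : Fˣ, (x : F) = v 2 + ∏ y ∈ b, gf v y ∧ D.lt d₁ x ∧ D.lt x d₂) := by
  classical
  obtain ⟨c, hc⟩ := exists_ub hD S 1
  obtain ⟨c', hc'⟩ := hD.nomax c
  have hC : ∀ a ∈ 𝒜 ∪ ℬ, a.card = n := by
    intro a ha
    rcases Finset.mem_union.1 ha with h | h
    · exact hA a h
    · exact hB a h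
  obtain ⟨w, hw⟩ := density' (Sum.inl : Fin 3 → Fin 3 ⊕ {a // a ∈ 𝒜 ∪ ℬ}) (hp3 (𝒜 ∪ ℬ)) D hgen hD
    (fun i => rfl) (hp_ne n _ hC) (hp_cond n _ hC)
    (Sum.elim (fun _ => c) (fun a => if a.1 ∈ 𝒜 then d₀ else d₁))
    (Sum.elim (fun _ => c') (fun a => if a.1 ∈ 𝒜 then d₁ else d₂))
    (by
      rintro (i | a)
      · exact hc'
      · simp only [Sum.elim_inr]
        split_ifs
        · exact h01
        · exact h12)
  refine ⟨w, ?_, ?_, ?_⟩
  · obtain ⟨x, hx, h1, h2⟩ := hw (Sum.inl 0)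
    refine ⟨x, by simpa [hp3] using hx, ?_⟩
    intro u hu
    exact hD.trans _ _ _ (hc u hu) h1
  · intro a ha
    obtain ⟨x, hx, h1, h2⟩ := hw (Sum.inr ⟨a, Finset.mem_union_left _ ha⟩)
    rw [eval_inr] at hx
    refine ⟨x, hx, ?_, ?_⟩
    · simpa [ha] using h1
    · simpa [ha] using h2
  · intro b hb
    have hbA : b ∉ 𝒜 := fun h => (Finset.disjoint_left.1 hAB h hb)
    obtain ⟨x, hx, h1, h2⟩ := hw (Sum.inr ⟨b, Finset.mem_union_right _ hb⟩)
    rw [eval_inr] at hx
    refine ⟨x, hx, ?_, ?_⟩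
    · simpa [hbA] using h1
    · simpa [hbA] using h2

end

end Pool.Agent.V11251.ACFO
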