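import Pool.Agent.V11251.ACFO.Defs

set_option autoImplicit false
set_option linter.unusedVariables false

open FirstOrder

universe u

namespace Pool.Agent.V11251.ACFO

open Complex

theorem ang_nonneg (z : ℂ) : 0 ≤ ang z := Int.fract_nonneg _
theorem ang_lt_one (z : ℂ) : ang z < 1 := Int.fract_lt_one _

theorem exp_ang {z : ℂ} (hz : ‖z‖ = 1) : Complex.exp (2 * Real.pi * (ang z) * I) = z := by
  have h1 : (2 * Real.pi : ℂ) ≠ 0 := by
    simp [Real.pi_ne_zero]
  have h2 : Complex.exp (arg z * I) = z := by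
    have := Complex.norm_mul_exp_arg_mul_I z
    rw [hz] at this
    simpa using this
  have h3 : (ang z : ℂ) = (arg z : ℂ) / (2 * Real.pi) - (⌊Complex.arg z / (2 * Real.pi)⌋ : ℤ) := by
    unfold ang Int.fract
    push_cast
    ring
  rw [h3]
  have h4 : (2 * Real.pi * ((arg z : ℂ) / (2 * Real.pi) - (⌊Complex.arg z / (2 * Real.pi)⌋ : ℤ)) * I)
      = arg z * I - (⌊Complex.arg z / (2 * Real.pi)⌋ : ℤ) * (2 * Real.pi * I) := by
    field_simp
  rw [h4, Complex.exp_sub, h2, Complex.exp_int_mul_two_pi_mul_I, div_one]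

theorem ang_inj {z w : ℂ} (hz : ‖z‖ = 1) (hw : ‖w‖ = 1) (h : ang z = ang w) : z = w := by
  rw [← exp_ang hz, ← exp_ang hw, h]

theorem ang_exp {x : ℝ} (h0 : 0 ≤ x) (h1 : x < 1) : ang (Complex.exp (2 * Real.pi * x * I)) = x := by
  set z := Complex.exp (2 * Real.pi * x * I) with hz
  have hn : ‖z‖ = 1 := by
    have : (2 * Real.pi * x * I : ℂ) = ((2 * Real.pi * x : ℝ) : ℂ) * I := by push_cast; ring
    rw [hz, this, Complex.norm_exp_ofReal_mul_I]
  have h2 := exp_ang hn
  rw [hz] at h2
  rw [Complex.exp_eq_exp_iff_exists_int] at h2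
  obtain ⟨n, hn'⟩ := h2
  rw [← hz] at hn'
  have h3 : ang z = x + n := by
    have hpi : (2 * Real.pi * I : ℂ) ≠ 0 := by simp [Real.pi_ne_zero]
    have : (2 * Real.pi * I : ℂ) * (ang z : ℂ) = (2 * Real.pi * I) * (x + n : ℂ) := by
      linear_combination hn'
    have := mul_left_cancel₀ hpi this
    exact_mod_cast this
  have h4 := ang_nonneg z
  have h5 := ang_lt_one z
  rw [h3] at h4 h5
  have : n = 0 := by
    have a1 : (n : ℝ) < 1 := by linarith
    have a2 : (-1 : ℝ) < n := by linarith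
    have a1' : n < 1 := by exact_mod_cast a1
    have a2' : -1 < n := by exact_mod_cast a2
    omega
  rw [h3, this]; simp

theorem norm_U {p : ℕ} (a : U p) : ‖((a : ℂˣ) : ℂ)‖ = 1 := by
  obtain ⟨n, hn, _, ha⟩ := a.2
  have : (((a : ℂˣ) : ℂ)) ^ n = 1 := by simpa using congrArg Units.val ha
  exact Complex.norm_eq_one_of_pow_eq_one this hn.ne'

theorem ult_irrefl {p : ℕ} (a : U p) : ¬ ult p a a := lt_irrefl _

theorem ult_trans {p : ℕ} {a b c : U p} (h : ult p a b) (h' : ult p b c) : ult p a c := lt_trans h h'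

theorem ult_total {p : ℕ} (a b : U p) : ult p a b ∨ a = b ∨ ult p b a := by
  rcases lt_trichotomy (ang ((a : ℂˣ) : ℂ)) (ang ((b : ℂˣ) : ℂ)) with h | h | h
  · exact Or.inl h
  · refine Or.inr (Or.inl ?_)
    exact Subtype.ext (Units.ext (ang_inj (norm_U a) (norm_U b) h))
  · exact Or.inr (Or.inr h)

/-- for reals `x < y` in `[0,1]` there is an element of `U p` with angle strictly between. -/
theorem exists_between_U {p : ℕ} (hp : p = 0 ∨ p.Prime) {x y : ℝ} (hx : 0 ≤ x) (hy : y ≤ 1)
    (hxy : x < y) : ∃ a : U p, x < ang ((a : ℂˣ) : ℂ) ∧ ang ((a : ℂˣ) : ℂ) < y := by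
  -- a prime q different from p
  obtain ⟨q, hq1, hq⟩ : ∃ q : ℕ, 1 < q ∧ (p = 0 ∨ q.Coprime p) := by
    rcases hp with h | h
    · exact ⟨2, by norm_num, Or.inl h⟩
    · refine ⟨p + 1, by have := h.pos; omega, Or.inr ?_⟩
      simp
  obtain ⟨j, hj⟩ : ∃ j : ℕ, 1 / (y - x) < (q : ℝ) ^ j :=
    pow_unbounded_of_one_lt _ (by exact_mod_cast hq1)
  have hqj : 0 < (q : ℝ) ^ j := by positivity
  have hd : 1 < (y - x) * (q : ℝ) ^ j := by
    have h0 : 0 < y - x := by linarith
    rw [div_lt_iff₀ h0] at hj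
    linarith
  set k : ℕ := ⌊x * (q : ℝ) ^ j⌋₊ + 1 with hk
  have hk1 : x * (q : ℝ) ^ j < k := by
    rw [hk]; push_cast; exact Nat.lt_floor_add_one _
  have hk2 : (k : ℝ) ≤ x * (q : ℝ) ^ j + 1 := by
    rw [hk]; push_cast
    have := Nat.floor_le (by positivity : 0 ≤ x * (q : ℝ) ^ j)
    linarith
  have hk3 : (k : ℝ) < y * (q : ℝ) ^ j := by nlinarith
  set t : ℝ := k / (q : ℝ) ^ j with ht
  have ht0 : x < t := by rw [ht, lt_div_iff₀ hqj]; exact hk1
  have ht1 : t < y := by rw [ht, div_lt_iff₀ hqj]; exact hk3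
  set z : ℂ := Complex.exp (2 * Real.pi * t * I) with hz
  have hz0 : z ≠ 0 := Complex.exp_ne_zero _
  have hzn : z ^ (q ^ j) = 1 := by
    rw [hz, ← Complex.exp_nat_mul, Complex.exp_eq_one_iff]
    refine ⟨k, ?_⟩
    rw [ht]
    have : ((q : ℂ) ^ j) ≠ 0 := by
      have : (q : ℂ) ≠ 0 := by
        have : q ≠ 0 := by omega
        exact_mod_cast this
      exact pow_ne_zero _ this
    push_cast
    field_simp
  refine ⟨⟨Units.mk0 z hz0, q ^ j, by positivity, ?_, ?_⟩, ?_, ?_⟩
  · rcases hq with h | h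
    · exact Or.inl h
    · exact Or.inr (Nat.Coprime.pow_left j h)
  · ext; simpa using hzn
  · show x < ang z
    rw [hz, ang_exp (by linarith) (by linarith)]; exact ht0
  · show ang z < y
    rw [hz, ang_exp (by linarith) (by linarith)]; exact ht1

theorem ult_nomax {p : ℕ} (hp : p = 0 ∨ p.Prime) (a : U p) : ∃ b, ult p a b := by
  obtain ⟨b, hb, _⟩ := exists_between_U hp (ang_nonneg ((a : ℂˣ) : ℂ)) le_rfl (ang_lt_one _)
  exact ⟨b, hb⟩

theorem ult_dense {p : ℕ} (hp : p = 0 ∨ p.Prime) {a b : U p} (h : ult p a b) :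
    ∃ c, ult p a c ∧ ult p c b := by
  obtain ⟨c, h1, h2⟩ := exists_between_U hp (ang_nonneg ((a : ℂˣ) : ℂ)) (ang_lt_one _).le h
  exact ⟨c, h1, h2⟩

/-! ### transfer -/

/-- bound variable -/
def bt {k : ℕ} (i : Fin k) : Lm.Term (Empty ⊕ Fin k) := Language.Term.var (Sum.inr i)

/-- the symbol -/
def ltS : Lm.Relations 2 := MRel.lt

/-- the atomic formula -/
def la {k : ℕ} (i j : Fin k) : Lm.BoundedFormula Empty k := ltS.boundedFormula₂ (bt i) (bt j)

theorem la_realize {G : Type u} [Group G] (D : Data G) {k : ℕ} (i j : Fin k)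
    (p : Empty → G) (q : Fin k → G) :
    (@Language.BoundedFormula.Realize Lm G (mStr G D) Empty k (la i j) p q) ↔
      D.lt (q i) (q j) := by
  letI := mStr G D
  unfold la
  rw [Language.BoundedFormula.realize_rel₂]
  rfl

def sIrr : Lm.Sentence := Language.BoundedFormula.all (n := 0) (la 0 0).not
def sTrans : Lm.Sentence := Language.BoundedFormula.all (n := 0) (Language.BoundedFormula.all
  (Language.BoundedFormula.all ((la 0 1).imp ((la 1 2).imp (la 0 2)))))
def sTotal : Lm.Sentence := Language.BoundedFormula.all (n := 0) (Language.BoundedFormula.all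
  (la 0 1 ⊔ (Language.Term.bdEqual (bt 0) (bt 1) ⊔ la 1 0)))
def sNomax : Lm.Sentence := Language.BoundedFormula.all (n := 0)
  (Language.BoundedFormula.ex (la 0 1))
def sDense : Lm.Sentence := Language.BoundedFormula.all (n := 0) (Language.BoundedFormula.all
  ((la 0 1).imp (Language.BoundedFormula.ex (la 0 2 ⊓ la 2 1))))

section

variable {G : Type u} [Group G] (D : Data G)

theorem sIrr_iff : (@Language.Sentence.Realize Lm G (mStr G D) sIrr) ↔ ∀ a, ¬ D.lt a a := by
  letI := mStr G D
  unfold Language.Sentence.Realize Language.Formula.Realize sIrr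
  simp only [Language.BoundedFormula.realize_all, Language.BoundedFormula.realize_not, la_realize]
  rfl

theorem sTrans_iff : (@Language.Sentence.Realize Lm G (mStr G D) sTrans) ↔
    ∀ a b c, D.lt a b → D.lt b c → D.lt a c := by
  letI := mStr G D
  unfold Language.Sentence.Realize Language.Formula.Realize sTrans
  simp only [Language.BoundedFormula.realize_all, Language.BoundedFormula.realize_imp, la_realize]
  rfl

theorem sTotal_iff : (@Language.Sentence.Realize Lm G (mStr G D) sTotal) ↔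
    ∀ a b, D.lt a b ∨ a = b ∨ D.lt b a := by
  letI := mStr G D
  unfold Language.Sentence.Realize Language.Formula.Realize sTotal
  simp only [Language.BoundedFormula.realize_all, Language.BoundedFormula.realize_sup,
    Language.BoundedFormula.realize_bdEqual, la_realize]
  rfl

theorem sNomax_iff : (@Language.Sentence.Realize Lm G (mStr G D) sNomax) ↔
    ∀ a, ∃ b, D.lt a b := by
  letI := mStr G D
  unfold Language.Sentence.Realize Language.Formula.Realize sNomax
  simp only [Language.BoundedFormula.realize_all, Language.BoundedFormula.realize_ex, la_realize]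
  rfl

theorem sDense_iff : (@Language.Sentence.Realize Lm G (mStr G D) sDense) ↔
    ∀ a b, D.lt a b → ∃ c, D.lt a c ∧ D.lt c b := by
  letI := mStr G D
  unfold Language.Sentence.Realize Language.Formula.Realize sDense
  simp only [Language.BoundedFormula.realize_all, Language.BoundedFormula.realize_ex,
    Language.BoundedFormula.realize_imp, Language.BoundedFormula.realize_inf, la_realize]
  rfl

theorem transfer {p : ℕ} (h : @Language.Theory.Model Lm G (mStr G D) (Tm p)) (φ : Lm.Sentence)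
    (hφ : @Language.Sentence.Realize Lm (U p) (mStr (U p) (uData p)) φ) :
    @Language.Sentence.Realize Lm G (mStr G D) φ := by
  letI := mStr G D
  letI := mStr (U p) (uData p)
  exact h.realize_of_mem φ ((Language.mem_completeTheory).2 hφ)

/-- the order on `F^×` is a dense linear order without largest element -/
structure DLO {G : Type u} (lt : G → G → Prop) : Prop where
  irr : ∀ a, ¬ lt a a
  trans : ∀ a b c, lt a b → lt b c → lt a c
  total : ∀ a b, lt a b ∨ a = b ∨ lt b a
  nomax : ∀ a, ∃ b, lt a b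
  dense : ∀ a b, lt a b → ∃ c, lt a c ∧ lt c b

theorem dlo_of_model {p : ℕ} (hp : p = 0 ∨ p.Prime)
    (h : @Language.Theory.Model Lm G (mStr G D) (Tm p)) : DLO D.lt where
  irr := (sIrr_iff D).1 (transfer D h _ ((sIrr_iff _).2 ult_irrefl))
  trans := (sTrans_iff D).1 (transfer D h _ ((sTrans_iff _).2 fun a b c => ult_trans))
  total := (sTotal_iff D).1 (transfer D h _ ((sTotal_iff _).2 ult_total))
  nomax := (sNomax_iff D).1 (transfer D h _ ((sNomax_iff _).2 (ult_nomax hp)))
  dense := (sDense_iff D).1 (transfer D h _ ((sDense_iff _).2 fun a b => ult_dense hp))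

end

end Pool.Agent.V11251.ACFO
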